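import Pool.Agent.Helper87.MD.Goals
import Pool.Agent.Helper92.Field.Divisor

set_option autoImplicit false

open Finset
open scoped Classical

namespace Pool.Agent.Helper95.MD

open Pool.Agent.Helper98.Lang Pool.Agent.Helper87.MD

lemma ev_rpow (D p : ℝ) (hp : 0 < p) : ∃ N : ℕ, ∀ n : ℕ, N ≤ n → D ≤ (n : ℝ) ^ p := by
  have h := (tendsto_rpow_atTop hp).comp (tendsto_natCast_atTop_atTop (R := ℝ))
  have h2 := h.eventually_ge_atTop D
  obtain ⟨N, hN⟩ := Filter.eventually_atTop.mp h2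
  exact ⟨N, fun n hn => hN n hn⟩

lemma log_ge_one {R : ℝ} (h : 3 ≤ R) : 1 ≤ Real.log R := by
  rw [Real.le_log_iff_exp_le (by linarith)]
  have := Real.exp_one_lt_d9
  linarith

/-- counting the pairs through their product -/
lemma card_pairs (ξ c ε : ℝ) (s M d g R X : ℕ) (T : ℝ)
    (hX : ∀ a q : ℕ, 1 ≤ a → a ≤ M → g * q < 2 * R → a * q ≤ X)
    (hT : ∀ x : ℕ, 1 ≤ x → x ≤ X → (x.divisors.card : ℝ) ≤ T) :
    (SS ξ c ε s M d g R : ℝ) ≤ T *
      (((Icc 1 X).filter (fun x : ℕ => nd ((x : ℝ) * (s * ξ)) ≤ eb c ε d g R)).card : ℝ) := by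
  unfold SS
  set S := ((Icc 1 M) ×ˢ (Icc 1 (2 * R))).filter (fun x : ℕ × ℕ => R ≤ g * x.2 ∧ g * x.2 < 2 * R ∧
    nd ((s : ℝ) * x.1 * x.2 * ξ) ≤ eb c ε d g R) with hS
  set U := (Icc 1 X).filter (fun x : ℕ => nd ((x : ℝ) * (s * ξ)) ≤ eb c ε d g R) with hU
  have hmem : ∀ x ∈ S, x.1 * x.2 ∈ U := by
    intro x hx
    simp only [hS, Finset.mem_filter, Finset.mem_product, Finset.mem_Icc] at hx
    obtain ⟨⟨⟨h1, h2⟩, h3, h4⟩, h5, h6, h7⟩ := hx
    simp only [hU, Finset.mem_filter, Finset.mem_Icc]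
    refine ⟨⟨Nat.mul_pos h1 h3, hX _ _ h1 h2 h6⟩, ?_⟩
    have e : (((x.1 * x.2 : ℕ) : ℝ) * (s * ξ)) = (s : ℝ) * x.1 * x.2 * ξ := by
      push_cast; ring
    rw [e]; exact h7
  have hcard : S.card = ∑ b ∈ U, (S.filter (fun x => x.1 * x.2 = b)).card :=
    Finset.card_eq_sum_card_fiberwise (fun x hx => hmem x hx)
  rw [hcard]
  push_cast
  have hb : ∀ b ∈ U, ((S.filter (fun x => x.1 * x.2 = b)).card : ℝ) ≤ T := by
    intro b hb
    simp only [hU, Finset.mem_filter, Finset.mem_Icc] at hb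
    refine le_trans ?_ (hT b hb.1.1 hb.1.2)
    norm_cast
    refine Finset.card_le_card_of_injOn (fun x => x.2) ?_ ?_
    · intro x hx
      simp only [Finset.coe_filter, Set.mem_ofPred_eq] at hx
      simp only [Finset.mem_coe, Nat.mem_divisors]
      exact ⟨⟨x.1, by rw [← hx.2, mul_comm]⟩, by omega⟩
    · intro x hx y hy hxy
      simp only [Finset.coe_filter, Set.mem_ofPred_eq] at hx hy
      simp only at hxy
      have h1 : x.1 * x.2 = y.1 * y.2 := by rw [hx.2, hy.2]
      rw [hxy] at h1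
      have hy2 : 0 < y.2 := by
        rcases Nat.eq_zero_or_pos y.2 with h0 | h0
        · exfalso
          have := hy.2
          rw [h0, Nat.mul_zero] at this
          omega
        · exact h0
      have h2 : x.1 = y.1 := Nat.eq_of_mul_eq_mul_right hy2 h1
      exact Prod.ext h2 hxy
  calc ∑ b ∈ U, ((S.filter (fun x => x.1 * x.2 = b)).card : ℝ) ≤ ∑ b ∈ U, T :=
        Finset.sum_le_sum hb
    _ = T * (U.card : ℝ) := by rw [Finset.sum_const, nsmul_eq_mul, mul_comm]

theorem mdBLB : LatStmt → BlbStmt := by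
  intro hlat ξ hξ ε κ A c α hε hκ hκA hc hα0 hα1
  set m : ℝ := min κ (1 - α) with hm
  have hm0 : 0 < m := lt_min hκ (by linarith)
  have hm1 : m ≤ 1 - α := min_le_right _ _
  set k : ℝ := m / 40 with hk
  have hk0 : 0 < k := by positivity
  have hA : 0 < A := lt_of_lt_of_le hκ hκA
  set δ : ℝ := k / (2 * (A + 3)) with hδ
  have hδ0 : 0 < δ := by positivity
  have hδk : (A + 3) * δ = k / 2 := by
    rw [hδ]; field_simp
  obtain ⟨C2, hC2, hl⟩ := hlat ξ hξ δ hδ0
  have he0 : 0 < k / (16 * (A + 2)) := by positivity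
  obtain ⟨C1, hC1, hd⟩ := Pool.Agent.Helper92.Field.divisor_bound he0
  set D : ℝ := C1 * C2 * (2 * c + (2 * c) ^ ((1 : ℝ) / 2)) with hD
  obtain ⟨N1, hN1⟩ := ev_rpow D (7 * k / 16) (by positivity)
  obtain ⟨N2, hN2⟩ := ev_rpow 3 κ hκ
  refine ⟨max (max N1 N2) 3, ?_⟩
  intro M d s g R hMd hs hsα hgd hg hR1 hR2
  have hMd1 : N1 ≤ M * d := le_trans (le_trans (le_max_left _ _) (le_max_left _ _)) hMd
  have hMd2 : N2 ≤ M * d := le_trans (le_trans (le_max_right _ _) (le_max_left _ _)) hMd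
  have hMd3 : 3 ≤ M * d := le_trans (le_max_right _ _) hMd
  have hD1 := hN1 _ hMd1
  have hR3 : (3 : ℝ) ≤ R := le_trans (hN2 _ hMd2) hR1
  set K : ℝ := ((M * d : ℕ) : ℝ) with hK
  have hK3 : (3 : ℝ) ≤ K := by rw [hK]; exact_mod_cast hMd3
  have hK0 : 0 < K := by linarith
  have hK1 : 1 ≤ K := by linarith
  have hM : 1 ≤ M := by
    rcases Nat.eq_zero_or_pos M with h | h
    · rw [h] at hMd3; simp at hMd3
    · exact h
  have hd1 : 1 ≤ d := by
    rcases Nat.eq_zero_or_pos d with h | h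
    · rw [h] at hMd3; simp at hMd3
    · exact h
  have hgN : 1 ≤ g := Nat.pos_of_dvd_of_pos hgd hd1
  have hg1 : (1 : ℝ) ≤ g := by exact_mod_cast hgN
  have hg0 : (0 : ℝ) < g := by linarith
  have hMR : (1 : ℝ) ≤ M := by exact_mod_cast hM
  have hdR : (1 : ℝ) ≤ d := by exact_mod_cast hd1
  have hs1 : (1 : ℝ) ≤ s := by exact_mod_cast hs
  have hKeq : K = (M : ℝ) * d := by rw [hK]; push_cast; ring
  have hMK : (M : ℝ) ≤ K := by rw [hKeq]; nlinarith
  have hgoal0 : 0 ≤ K ^ (1 - m / 80) := (Real.rpow_pos_of_pos hK0 _).le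
  by_cases hgR : 2 * R ≤ g
  · have h0 : SS ξ c ε s M d g R = 0 := by
      unfold SS
      rw [Finset.card_eq_zero, Finset.filter_eq_empty_iff]
      rintro ⟨a, q⟩ hx ⟨_, h2, _⟩
      simp only [Finset.mem_product, Finset.mem_Icc] at hx
      simp only at h2
      have : g ≤ g * q := Nat.le_mul_of_pos_right g hx.2.1
      omega
    rw [h0]
    simpa using hgoal0
  · push Not at hgR
    set X : ℕ := 2 * M * R / g with hX
    have hXpos : 1 ≤ X := by
      rw [hX]
      apply Nat.div_pos _ hgN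
      have : 2 * R * 1 ≤ 2 * R * M := Nat.mul_le_mul_left _ hM
      calc g ≤ 2 * R := hgR.le
        _ ≤ 2 * R * M := by omega
        _ = 2 * M * R := by ring
    have hXle : (X : ℝ) ≤ 2 * M * R / g := by
      rw [hX]
      have := @Nat.cast_div_le ℝ _ _ _ (2 * M * R) g
      push_cast at this
      exact this
    have hR0 : (0 : ℝ) < R := by linarith
    have hXK : (X : ℝ) ≤ K ^ (A + 2) := by
      calc (X : ℝ) ≤ 2 * M * R / g := hXle
        _ ≤ 2 * M * R := div_le_self (by positivity) hg1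
        _ ≤ K * K * K ^ A := by
            have h1 : (2 : ℝ) * M ≤ K * K := by nlinarith
            exact mul_le_mul h1 hR2 hR0.le (by positivity)
        _ = K ^ (A + 2) := by
            rw [Real.rpow_add hK0]
            norm_num
            ring
    have hX0 : (0 : ℝ) < X := by exact_mod_cast hXpos
    set T : ℝ := C1 * K ^ (k / 16) with hT
    have hTb : ∀ x : ℕ, 1 ≤ x → x ≤ X → (x.divisors.card : ℝ) ≤ T := by
      intro x hx1 hx2
      refine le_trans (hd x (by omega)) ?_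
      rw [hT]
      apply mul_le_mul_of_nonneg_left _ hC1.le
      calc (x : ℝ) ^ (k / (16 * (A + 2))) ≤ (K ^ (A + 2)) ^ (k / (16 * (A + 2))) := by
            apply Real.rpow_le_rpow (by positivity) _ he0.le
            refine le_trans ?_ hXK
            exact_mod_cast hx2
        _ = K ^ (k / 16) := by
            rw [← Real.rpow_mul hK0.le]
            congr 1
            field_simp
    have hXmul : ∀ a q : ℕ, 1 ≤ a → a ≤ M → g * q < 2 * R → a * q ≤ X := by
      intro a q _ ha hq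
      rw [hX, Nat.le_div_iff_mul_le hgN]
      calc a * q * g = a * (g * q) := by ring
        _ ≤ M * (2 * R) := Nat.mul_le_mul ha hq.le
        _ = 2 * M * R := by ring
    have hcp := card_pairs ξ c ε s M d g R X T hXmul hTb
    -- the threshold
    set e : ℝ := eb c ε d g R with he
    have hLL : 1 ≤ LL ε R := by
      unfold LL
      exact Real.one_le_rpow (log_ge_one hR3) (by linarith)
    have hdg : ((d / g : ℕ) : ℝ) = (d : ℝ) / g := Nat.cast_div hgd (by positivity)
    have hepos : 0 < e := by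
      rw [he]; unfold eb
      rw [hdg]
      positivity
    have heX : e * X ≤ 2 * c * K / (g : ℝ) ^ 2 := by
      calc e * X ≤ e * (2 * M * R / g) := mul_le_mul_of_nonneg_left hXle hepos.le
        _ = (2 * c * K / (g : ℝ) ^ 2) / LL ε R := by
            rw [he]; unfold eb
            rw [hdg, hKeq]
            have : LL ε (R : ℕ) ≠ 0 := by positivity
            field_simp
        _ ≤ 2 * c * K / (g : ℝ) ^ 2 := div_le_self (by positivity) hLL
    have hN := hl s X e hs hXpos hepos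
    -- second term
    have hsX : e * ((s : ℝ) * X) ^ (1 + δ) ≤ 2 * c * K ^ (1 + α + k / 2) / (g : ℝ) ^ 2 := by
      have h1 : ((s : ℝ) * X) ^ (1 + δ) = (s : ℝ) ^ (1 + δ) * ((X : ℝ) ^ δ * X) := by
        rw [Real.mul_rpow (by positivity) hX0.le, Real.rpow_add hX0, Real.rpow_one]
        ring
      have h2 : (s : ℝ) ^ (1 + δ) ≤ K ^ (α * (1 + δ)) := by
        rw [Real.rpow_mul hK0.le]
        exact Real.rpow_le_rpow (by positivity) hsα (by linarith)
      have h3 : (X : ℝ) ^ δ ≤ K ^ ((A + 2) * δ) := by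
        rw [Real.rpow_mul hK0.le]
        exact Real.rpow_le_rpow hX0.le hXK hδ0.le
      have h4 : α * (1 + δ) + (A + 2) * δ ≤ α + k / 2 := by
        have : α * δ ≤ 1 * δ := mul_le_mul_of_nonneg_right hα1.le hδ0.le
        have e1 : (A + 3) * δ = (A + 2) * δ + 1 * δ := by ring
        nlinarith
      calc e * ((s : ℝ) * X) ^ (1 + δ) = ((s : ℝ) ^ (1 + δ) * (X : ℝ) ^ δ) * (e * X) := by
            rw [h1]; ring
        _ ≤ (K ^ (α * (1 + δ)) * K ^ ((A + 2) * δ)) * (2 * c * K / (g : ℝ) ^ 2) := by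
            apply mul_le_mul _ heX (by positivity) (by positivity)
            exact mul_le_mul h2 h3 (by positivity) (by positivity)
        _ = K ^ (α * (1 + δ) + (A + 2) * δ) * (2 * c * K / (g : ℝ) ^ 2) := by
            rw [Real.rpow_add hK0]
        _ ≤ K ^ (α + k / 2) * (2 * c * K / (g : ℝ) ^ 2) := by
            apply mul_le_mul_of_nonneg_right _ (by positivity)
            exact Real.rpow_le_rpow_of_exponent_le hK1 h4
        _ = 2 * c * K ^ (1 + α + k / 2) / (g : ℝ) ^ 2 := by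
            have : K ^ (1 + α + k / 2) = K * K ^ (α + k / 2) := by
              rw [add_assoc, Real.rpow_add hK0, Real.rpow_one]
            rw [this]
            ring
    have hsq : (e * ((s : ℝ) * X) ^ (1 + δ)) ^ ((1 : ℝ) / 2)
        ≤ (2 * c) ^ ((1 : ℝ) / 2) * K ^ ((1 + α + k / 2) / 2) / g := by
      calc (e * ((s : ℝ) * X) ^ (1 + δ)) ^ ((1 : ℝ) / 2)
          ≤ (2 * c * K ^ (1 + α + k / 2) / (g : ℝ) ^ 2) ^ ((1 : ℝ) / 2) :=
            Real.rpow_le_rpow (by positivity) hsX (by norm_num)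
        _ = (2 * c) ^ ((1 : ℝ) / 2) * K ^ ((1 + α + k / 2) / 2) / g := by
            rw [Real.div_rpow (by positivity) (by positivity),
              Real.mul_rpow (by positivity) (by positivity), ← Real.rpow_mul hK0.le]
            have h1 : ((g : ℝ) ^ 2) ^ ((1 : ℝ) / 2) = g := by
              rw [← Real.sqrt_eq_rpow, Real.sqrt_sq hg0.le]
            rw [h1]
            congr 3
            ring
    have hginv : 1 / (g : ℝ) ≤ K ^ (-k) := by
      rw [Real.rpow_neg hK0.le, ← one_div]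
      exact one_div_le_one_div_of_le (by positivity) hg.le
    have hexp1 : K ^ (1 - k) = K * K ^ (-k) := by
      rw [sub_eq_add_neg, Real.rpow_add hK0, Real.rpow_one]
    have hexp2 : K ^ ((1 + α + k / 2) / 2) ≤ K ^ (1 - k) := by
      apply Real.rpow_le_rpow_of_exponent_le hK1
      have : 40 * k ≤ 1 - α := by rw [hk]; linarith
      linarith
    have hmain : (g : ℝ) * (e * X + (e * ((s : ℝ) * X) ^ (1 + δ)) ^ ((1 : ℝ) / 2))
        ≤ (2 * c + (2 * c) ^ ((1 : ℝ) / 2)) * K ^ (1 - k) := by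
      have h1 : (g : ℝ) * (e * X) ≤ 2 * c * K ^ (1 - k) := by
        calc (g : ℝ) * (e * X) ≤ g * (2 * c * K / (g : ℝ) ^ 2) :=
              mul_le_mul_of_nonneg_left heX hg0.le
          _ = 2 * c * K * (1 / g) := by field_simp
          _ ≤ 2 * c * K * K ^ (-k) := mul_le_mul_of_nonneg_left hginv (by positivity)
          _ = 2 * c * K ^ (1 - k) := by rw [hexp1]; ring
      have h2 : (g : ℝ) * (e * ((s : ℝ) * X) ^ (1 + δ)) ^ ((1 : ℝ) / 2)
          ≤ (2 * c) ^ ((1 : ℝ) / 2) * K ^ (1 - k) := by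
        calc (g : ℝ) * (e * ((s : ℝ) * X) ^ (1 + δ)) ^ ((1 : ℝ) / 2)
            ≤ g * ((2 * c) ^ ((1 : ℝ) / 2) * K ^ ((1 + α + k / 2) / 2) / g) :=
              mul_le_mul_of_nonneg_left hsq hg0.le
          _ = (2 * c) ^ ((1 : ℝ) / 2) * K ^ ((1 + α + k / 2) / 2) := by field_simp
          _ ≤ (2 * c) ^ ((1 : ℝ) / 2) * K ^ (1 - k) :=
              mul_le_mul_of_nonneg_left hexp2 (by positivity)
      linarith
    have hT0 : 0 < T := by rw [hT]; positivity
    calc (g : ℝ) * SS ξ c ε s M d g R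
        ≤ g * (T * (C2 * (e * X + (e * ((s : ℝ) * X) ^ (1 + δ)) ^ ((1 : ℝ) / 2)))) := by
          apply mul_le_mul_of_nonneg_left _ hg0.le
          refine le_trans hcp ?_
          exact mul_le_mul_of_nonneg_left hN hT0.le
      _ = T * C2 * (g * (e * X + (e * ((s : ℝ) * X) ^ (1 + δ)) ^ ((1 : ℝ) / 2))) := by ring
      _ ≤ T * C2 * ((2 * c + (2 * c) ^ ((1 : ℝ) / 2)) * K ^ (1 - k)) :=
          mul_le_mul_of_nonneg_left hmain (by positivity)
      _ = D * (K ^ (k / 16) * K ^ (1 - k)) := by rw [hT, hD]; ring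
      _ ≤ K ^ (7 * k / 16) * (K ^ (k / 16) * K ^ (1 - k)) :=
          mul_le_mul_of_nonneg_right hD1 (by positivity)
      _ = K ^ (1 - m / 80) := by
          rw [← Real.rpow_add hK0, ← Real.rpow_add hK0]
          congr 1
          rw [hk]
          ring

end Pool.Agent.Helper95.MD
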